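import Pool.Agent.MWGR.StmtsD

/-!
# Block MWGR, part D, row NTP (helper49; the proof follows helper45's row NTR)
-/

namespace Pool.Agent.MWGR.H49

open Pool.Agent.Helper14_MV Pool.Agent.Helper2_MV Pool.Agent.MVO Pool.Agent.MWL Pool.Agent.MWS
  Pool.Agent.MWH

theorem fmR (g : ℕ → List ℕ) (a : ℕ) (h : g a = [a]) : ∀ k : ℕ,
    (List.replicate k a).flatMap g = List.replicate k a
  | 0 => rfl
  | k + 1 => by rw [List.replicate_succ, List.flatMap_cons, h, fmR g a h k]; rfl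

theorem expo (n t : ℕ) (hn : 1 ≤ n) : t + ((n - 1) * t + 2) ≡ 2 [MOD n] := by
  obtain ⟨k, rfl⟩ : ∃ k, n = k + 1 := ⟨n - 1, by omega⟩
  have h1 : t + ((k + 1 - 1) * t + 2) = (k + 1) * t + 2 := by
    rw [Nat.add_sub_cancel]
    ring
  rw [h1]
  unfold Nat.ModEq
  rw [Nat.mul_add_mod]

theorem ntp (hE : ExgStmt) (hA : NtaStmt) : NtpStmt := by
  intro n θ hB h h' t s' t' r r' hh hh' ht hs' hr hr' h0
  have hn := hB.pos
  have key : ∀ k : ℕ, 1 ∉ X k ∧ 3 ∉ X k := fun k =>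
    ⟨fun h => by simp [List.mem_replicate] at h, fun h => by simp [List.mem_replicate] at h⟩
  have h1 := hA n θ hB (X h ++ [2]) (X t) [] (X h' ++ ([2] ++ X s')) (X t') [] 1 3 r r' hr hr'
    (by decide) (by
    intro D hD
    simp only [List.mem_cons, List.not_mem_nil, or_false] at hD
    rcases hD with rfl | rfl | rfl | rfl | rfl | rfl
    · simp [key h]
    · exact key t
    · simp
    · simp [key h', key s']
    · exact key t'
    · simp) (by simpa using h0)
  -- insert `x^n` behind the separator `2`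
  have h2 := RR.sub (fun c => if c = 2 then 2 :: X n else [c]) h1
  have e1 : ((X h ++ [2]) ++ 1 :: (X t ++ 3 :: 1 :: ([] : List ℕ))).flatMap
      (fun c => if c = 2 then 2 :: X n else [c]) =
        (X h ++ [2]) ++ (X n ++ 1 :: (X t ++ [3, 1])) := by
    simp [fmR]
  have e2 : ((X h' ++ ([2] ++ X s')) ++ 1 :: (X t' ++ 3 :: 1 :: ([] : List ℕ))).flatMap
      (fun c => if c = 2 then 2 :: X n else [c]) =
        (X h' ++ [2]) ++ (List.replicate (n + s') 0 ++ 1 :: (X t' ++ [3, 1])) := by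
    simp [fmR]
    rw [List.replicate_add, List.append_assoc]
  rw [e1, e2] at h2
  have mh' : (0 : ℕ) ∈ X h' ++ [2] :=
    List.mem_append_left _ (List.mem_replicate.2 ⟨by omega, rfl⟩)
  have h3 := (hE n θ hB (X h' ++ [2]) (1 :: (X t' ++ [3, 1])) 0 (n + s') s' (by
    unfold Nat.ModEq
    rw [Nat.add_mod_left])).1 mh' (by omega) hs'
  have h4 : RR θ ((X h ++ [2]) ++ 1 :: (X t ++ [3, 1]))
      ((X h ++ [2]) ++ (X n ++ 1 :: (X t ++ [3, 1]))) := by
    apply θ.trans _ (θ.trans (RR.symm h3) (RR.symm h2))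
    have h5 : RR θ ((X h ++ [2]) ++ 1 :: (X t ++ 3 :: 1 :: ([] : List ℕ)))
      ((X h' ++ ([2] ++ X s')) ++ 1 :: (X t' ++ 3 :: 1 :: ([] : List ℕ))) := h1
    have e : (X h' ++ ([2] ++ X s')) ++ 1 :: (X t' ++ 3 :: 1 :: ([] : List ℕ)) =
      (X h' ++ [2]) ++ (X s' ++ 1 :: (X t' ++ [3, 1])) := by
      simp only [List.append_assoc]
    rw [e] at h5
    exact h5
  -- insert `x^m` in front of the separator `3`
  obtain ⟨m, hm⟩ : ∃ m, m = (n - 1) * t + 2 := ⟨_, rfl⟩
  have h5 := RR.sub (fun c => if c = 3 then X m ++ [3] else [c]) h4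
  have e3 : ((X h ++ [2]) ++ 1 :: (X t ++ [3, 1])).flatMap
      (fun c => if c = 3 then X m ++ [3] else [c]) =
      (X h ++ [2, 1]) ++ (List.replicate (t + m) 0 ++ [3, 1]) := by
    simp [fmR]
    rw [List.replicate_add, List.append_assoc]
  have e4 : ((X h ++ [2]) ++ (X n ++ 1 :: (X t ++ [3, 1]))).flatMap
      (fun c => if c = 3 then X m ++ [3] else [c]) =
        (X h ++ ([2] ++ (X n ++ [1]))) ++ (List.replicate (t + m) 0 ++ [3, 1]) := by
    simp [fmR]
    rw [List.replicate_add, List.append_assoc]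
  rw [e3, e4] at h5
  have hmod : t + m ≡ 2 [MOD n] := by rw [hm]; exact expo n t hn
  have mh : (0 : ℕ) ∈ X h := List.mem_replicate.2 ⟨by omega, rfl⟩
  have h6 := (hE n θ hB (X h ++ [2, 1]) [3, 1] 0 (t + m) 2 hmod).1
    (List.mem_append_left _ mh) (by omega) (by omega)
  have h7 := (hE n θ hB (X h ++ ([2] ++ (X n ++ [1]))) [3, 1] 0 (t + m) 2 hmod).1
    (List.mem_append_left _ mh) (by omega) (by omega)
  have h8 := θ.trans (RR.symm h6) (θ.trans h5 h7)
  -- multiply from the left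
  obtain ⟨u, hu⟩ : ∃ u, u = (n - 1) * h + 2 := ⟨_, rfl⟩
  have humod : h + u ≡ 2 [MOD n] := by rw [hu]; exact expo n h hn
  have h9 := (RR.refl (β := θ) (X u)).append h8
  have e5 : X u ++ ((X h ++ [2, 1]) ++ (List.replicate 2 0 ++ [3, 1])) =
      [] ++ (List.replicate (h + u) 0 ++ [2, 1, 0, 0, 3, 1]) := by
    rw [Nat.add_comm h u]
    simp
    rw [List.replicate_add, List.append_assoc]
  have e6 : X u ++ ((X h ++ ([2] ++ (X n ++ [1]))) ++ (List.replicate 2 0 ++ [3, 1])) =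
      [] ++ (List.replicate (h + u) 0 ++ ([2] ++ (X n ++ [1, 0, 0, 3, 1]))) := by
    rw [Nat.add_comm h u]
    simp
    rw [List.replicate_add, List.append_assoc]
  have h10 : RR θ (X u ++ ((X h ++ [2, 1]) ++ (List.replicate 2 0 ++ [3, 1])))
    (X u ++ ((X h ++ ([2] ++ (X n ++ [1]))) ++ (List.replicate 2 0 ++ [3, 1]))) := h9
  rw [e5, e6] at h10
  have h11 := (hE n θ hB [] [2, 1, 0, 0, 3, 1] 0 (h + u) 2 humod).2.1 (by omega) (by omega)
  have h12 := (hE n θ hB [] ([2] ++ (X n ++ [1, 0, 0, 3, 1])) 0 (h + u) 2 humod).2.1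
    (by omega) (by omega)
  have h13 := θ.trans (RR.symm h11) (θ.trans h10 h12)
  exact h13

end Pool.Agent.MWGR.H49
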